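import Pool.Agent.Q231.RS.Prop
import Pool.Agent.Q231.RS.Dil

/-!
# The Lindelöf hypothesis is decided by random sample points

Let `X_j` be random points (with arbitrary dependence) that hit every measurable subset `E` of a unit interval
`[n, n + 1]`, `n ≥ n₀`, with probability at least `c |E|`; for example one uniformly distributed point of each interval
`[n, n + 1]`, or the points `n + β`, `n ∈ ℤ`, with one uniformly distributed shift `β`. We show that for every `κ ≥ 0` the
bound `ζ(1/2 + it) = O(t^(κ + ε))` for every `ε > 0` holds for all `t` if and only if, almost surely, it holds at the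
sample points. For `κ = 0` this is the Lindelöf hypothesis. In particular it holds if and only if
`ζ(1/2 + i(n + β)) = O(n^ε)` for almost every `β`, and if and only if `ζ(1/2 + iαn) = O(n^ε)` for almost every `α`.
For translates it is even enough that the set of the shifts `β` with this property has, for one `c > 0`,
a proportion at least `c` in every interval.

Proof. Large values of zeta persist (starting library): if `|ζ(1/2 + iT)| ≥ T^μ` then `|ζ(1/2 + ix)| > T^κ` on a
positive proportion, depending only on `κ < μ`, of `[T - 1/2, T + 1/2]`, so that the sample hits this set with a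
probability bounded from below; the upper limit of events of probability at least `p` has probability at least `p`. If
the exponent is not admissible then near some heights the large values even fill almost all of every short window; these
windows, reduced modulo one, accumulate at an interval of fixed length.
-/

set_option autoImplicit false

open MeasureTheory Filter Set

namespace Pool.Agent.Results.MP_4e5e8a_nt.RandomSampling

/-- `|ζ(1/2 + it)|` -/
noncomputable def Z (t : ℝ) : ℝ := ‖riemannZeta (1 / 2 + t * Complex.I)‖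

/-- `|ζ(1/2 + it)| = O((1 + |t|)^(κ + ε))` for every `ε > 0`, for the heights `t` of the set `S`; for `κ = 0` and
`S = ℝ` this is the Lindelöf hypothesis. -/
def Exponent (κ : ℝ) (S : Set ℝ) : Prop :=
  ∀ ε : ℝ, 0 < ε → ∃ C : ℝ, ∀ t ∈ S, Z t ≤ C * (1 + |t|) ^ (κ + ε)

/-- The random points `X j` hit every measurable subset `E` of `[n, n + 1]`, `n ≥ n₀`, with probability at least
`c |E|`. Nothing is assumed about their dependence. -/
def HitsSets {Ω : Type} [MeasurableSpace Ω] (P : Measure Ω) {J : Type} (X : J → Ω → ℝ) : Prop :=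
  ∃ (c : ℝ) (n₀ : ℤ), 0 < c ∧ ∀ n : ℤ, n₀ ≤ n → ∀ E : Set ℝ, MeasurableSet E → E ⊆ Icc (n : ℝ) (n + 1) →
    ENNReal.ofReal c * volume E ≤ P {ω | ∃ j, X j ω ∈ E}

lemma adm_iff (κ : ℝ) : Exponent κ univ ↔ Pool.Agent.H983R4.LH.Adm κ := by
  unfold Exponent Pool.Agent.H983R4.LH.Adm Z
  simp

lemma admAt_iff (κ : ℝ) (S : Set ℝ) : Exponent κ S ↔ Pool.Agent.Q231.RS.AdmAt κ S := Iff.rfl

/-- **The growth exponent of zeta on the critical line is the growth exponent at random sample points.** -/
theorem result (κ : ℝ) (hκ : 0 ≤ κ) :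
    -- random points
    (∀ (Ω : Type) [MeasurableSpace Ω] (P : Measure Ω) [IsProbabilityMeasure P] (J : Type) [Countable J]
      (X : J → Ω → ℝ), (∀ j, Measurable (X j)) → HitsSets P X →
        (Exponent κ univ ↔ ∀ᵐ ω ∂P, Exponent κ {t | ∃ j, t = X j ω})) ∧
    -- translates of the integers
    (Exponent κ univ ↔ ∀ᵐ β : ℝ, Exponent κ {t | ∃ n : ℤ, t = n + β}) ∧
    (Exponent κ univ ↔ ∃ c : ℝ, 0 < c ∧ ∀ a b : ℝ, a < b →
      ENNReal.ofReal (c * (b - a)) ≤ volume ({β : ℝ | Exponent κ {t | ∃ n : ℤ, t = n + β}} ∩ Icc a b)) ∧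
    -- dilates of the integers
    (Exponent κ univ ↔ ∀ᵐ α : ℝ, Exponent κ {t | ∃ n : ℕ, t = α * n}) := by
  have hall : Exponent κ univ → ∀ S : Set ℝ, Exponent κ S := by
    intro h S ε hε
    obtain ⟨C, hC⟩ := h ε hε
    exact ⟨C, fun t _ => hC t (mem_univ t)⟩
  refine ⟨?_, ?_, ?_, ?_⟩
  · intro Ω _ P _ J _ X hX hhit
    obtain ⟨c, n₀, hc, hhit⟩ := hhit
    rw [adm_iff]
    exact Pool.Agent.Q231.RS.zsample hκ hX hc (n₀ := n₀) (fun n hn E hE hsub => hhit n hn E hE hsub)
  · constructor
    · exact fun h => Eventually.of_forall fun β => hall h _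
    · intro h
      rw [adm_iff]
      refine (Pool.Agent.Q231.RS.zsample hκ (V := fun (k : ℤ) (β : ℝ) => (k : ℝ) + β) (fun k => by fun_prop)
        one_pos (n₀ := 0) (Pool.Agent.Q231.RS.hits_translate _)).2 ?_
      exact ae_restrict_of_ae h
  · constructor
    · intro h
      refine ⟨1, one_pos, fun a b hab => ?_⟩
      have : {β : ℝ | Exponent κ {t | ∃ n : ℤ, t = n + β}} = univ := by
        ext β
        simp only [mem_univ, iff_true]
        exact hall h _
      rw [this, univ_inter, Real.volume_Icc, one_mul]
    · rintro ⟨c, hc, h⟩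
      rw [adm_iff]
      refine Pool.Agent.Q231.RS.ztranslate hκ (c := min c 1) (lt_min hc one_pos) (min_le_right _ _) ?_
      intro a b hab
      refine le_trans ?_ (h a b hab)
      apply ENNReal.ofReal_le_ofReal
      exact mul_le_mul_of_nonneg_right (min_le_left _ _) (by linarith)
  · constructor
    · exact fun h => Eventually.of_forall fun β => hall h _
    · intro h
      rw [adm_iff]
      refine (Pool.Agent.Q231.RS.zsample hκ (V := fun (k : ℕ) (α : ℝ) => α * (k : ℝ)) (fun k => by fun_prop)
        (by norm_num) (n₀ := 2) Pool.Agent.Q231.RS.hits_dilate).2 ?_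
      exact ae_restrict_of_ae h

end Pool.Agent.Results.MP_4e5e8a_nt.RandomSampling
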