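import Pool.Agent.Q85.Rig.Fil

/-!
# Pair correlation is decided by the windows at arbitrarily far, arbitrarily sparse scales

Unconditional.  Let `ℓ₁, ℓ₂ > 0` with `ℓ₁ / ℓ₂` irrational.  The asymptotic formula of the problem
for the number of pairs in all windows `0 < α < β` holds if and only if almost all zeros of zeta are
on the critical line (the number of the others with ordinate in `[0, T]` is `o(T log T)`) and for
`i = 1, 2` there are `c, κ > 0` and arbitrarily large `R` such that, for every window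
`[a, a + ℓᵢ]` with `a ∈ [R, (1 + c) R]`,

`limsup |N(T; a, a + ℓᵢ) / (T log T / 2π) - ∫_a^{a+ℓᵢ} F| ≤ exp (-κ R)`.

The scales `R` may be as sparse as one likes, and nothing is assumed on the windows between them.

Idea of the proof.  The defect of the windows, times a band-limited kernel, is an integrable
function `v` whose Fourier transform vanishes near the origin.  Its Cauchy transform
`C(z) = ∫ v(t) dt / (t - z)` decays exponentially away from the real line.  In a block
`R ≤ |x| ≤ (1 + c) R` where `v` is exponentially small, the maximum principle (for the product over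
four rotated points) shows that `C` is exponentially small near the real points of the block, too.
Comparison with the harmonic function `sin (k log |z|) cosh (k (arg z - π/2))` in a half annulus
gives a gain on the middle circle, hence (maximum principle in the half disc)
`|C(z + i)| ≤ M exp (- n d Im z)` implies the same with `n + 1` in place of `n`. So `C = 0` and
`v = 0`.  (This is Beurling's gap theorem, for exponentially small instead of empty blocks.)
-/

set_option autoImplicit false

open Filter Topology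

namespace Pool.Agent.Results.MP_8958e8_nt.SparseScales

/-- the nontrivial zeros of `ζ` with ordinate in `[0, T]` -/
def zeros (T : ℝ) : Set ℂ :=
  {s : ℂ | 0 < s.re ∧ s.re < 1 ∧ 0 ≤ s.im ∧ s.im ≤ T ∧ riemannZeta s = 0}

/-- the multiplicity of `s` as a zero of `ζ` -/
noncomputable def mult (s : ℂ) : ℕ := analyticOrderNatAt riemannZeta s

/-- the number of nontrivial zeros off the critical line with ordinate in `[0, T]`, counted with
multiplicity -/
noncomputable def Noff (T : ℝ) : ℕ := ∑ᶠ s ∈ {s | s ∈ zeros T ∧ s.re ≠ 1 / 2}, mult s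

/-- `N(T; α, β)`: the number of ordered pairs `(γ₁, γ₂)` of ordinates in `[0, T]`, counted with
multiplicity, with `(γ₁ - γ₂) log T / 2π` in `[α, β]` -/
noncomputable def N (T α β : ℝ) : ℕ :=
  ∑ᶠ s ∈ zeros T, ∑ᶠ s' ∈ zeros T,
    if α ≤ (s.im - s'.im) * Real.log T / (2 * Real.pi) ∧
      (s.im - s'.im) * Real.log T / (2 * Real.pi) ≤ β
    then mult s * mult s' else 0

/-- `F(u) = 1 - (sin πu / πu)²` -/
noncomputable def F (u : ℝ) : ℝ := 1 - (Real.sin (Real.pi * u) / (Real.pi * u)) ^ 2

/-- Almost all zeros are on the critical line: the number of zeros off the line with ordinate in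
`[0, T]` is `o(T log T)`, along the filter `l`. -/
def AlmostAllOnLine (l : Filter ℝ) : Prop :=
  Tendsto (fun T => (Noff T : ℝ) / (T * Real.log T)) l (𝓝 0)

/-- The asymptotic formula of the problem, along the filter `l` -/
def PairCorrelation (l : Filter ℝ) : Prop := ∀ α β : ℝ, 0 < α → α < β →
  Tendsto (fun T => N T α β / (T * Real.log T / (2 * Real.pi) * ∫ u in α..β, F u)) l (𝓝 1)

/-- For arbitrarily large `R`, all windows `[a, a + ℓ]` with `a` in the block `[R, (1 + c) R]`
contain the conjectured number of pairs, up to an error `exp (-κ R)`. -/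
def GoodScales (l : Filter ℝ) (ℓ : ℝ) : Prop := ∃ c κ : ℝ, 0 < c ∧ 0 < κ ∧
  ∀ R₀ : ℝ, ∃ R : ℝ, R₀ ≤ R ∧ ∀ a : ℝ, R ≤ a → a ≤ (1 + c) * R → ∀ ε : ℝ, 0 < ε → ∀ᶠ T in l,
    |N T a (a + ℓ) / (T * Real.log T / (2 * Real.pi)) - ∫ u in a..(a + ℓ), F u| ≤
      Real.exp (-(κ * R)) + ε

open Pool.Agent.Y749.Rig

lemma zeros_eq (T : ℝ) : zeros T = ((ZZ T : Finset ℂ) : Set ℂ) := by
  ext s
  rw [Finset.mem_coe, mem_ZZ]
  unfold zeros zs
  simp only [Set.mem_ofPred_eq]
  tauto

lemma mm_eq (s : ℂ) : (mult s : ℝ) = mm s := rfl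

lemma Noff_eq (T : ℝ) : (Noff T : ℝ) = NF T := by
  classical
  have h1 : {s | s ∈ zeros T ∧ s.re ≠ 1 / 2} =
      (((ZZ T).filter (fun s => s.re ≠ 1 / 2) : Finset ℂ) : Set ℂ) := by
    ext s
    rw [zeros_eq]
    simp
  unfold Noff NF
  rw [h1, finsum_mem_coe_finset]
  push_cast
  rfl

lemma N_eq (T α β : ℝ) :
    (N T α β : ℝ) = RR ((Set.Icc α β).indicator fun _ => 1) (ZZ T) (ZZ T) (Real.log T) := by
  classical
  unfold N RR
  rw [zeros_eq, finsum_mem_coe_finset]
  push_cast
  refine Finset.sum_congr rfl fun s _ => ?_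
  rw [finsum_mem_coe_finset]
  push_cast
  refine Finset.sum_congr rfl fun s' _ => ?_
  by_cases h : (s.im - s'.im) * Real.log T / (2 * Real.pi) ∈ Set.Icc α β
  · rw [if_pos (Set.mem_Icc.1 h), Set.indicator_of_mem h, mul_one]
    rfl
  · rw [if_neg (fun h' => h (Set.mem_Icc.2 h')), Set.indicator_of_notMem h, mul_zero]

lemma N_Mp {T : ℝ} (hT : 10 ≤ T) (α β : ℝ) :
    (N T α β : ℝ) / (T * Real.log T / (2 * Real.pi)) = (Mp T).real (Set.Icc α β) := by
  rw [Mp_real hT measurableSet_Icc, N_eq]
  rfl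

lemma F_pos {u : ℝ} (hu : 0 < u) : 0 < F u := by
  have hpi := Real.pi_pos
  have h0 : 0 < Real.pi * u := by positivity
  have h1 : |Real.sin (Real.pi * u)| < Real.pi * u := by
    have := Real.abs_sin_lt_abs h0.ne'
    rwa [abs_of_pos h0] at this
  have h2 : |Real.sin (Real.pi * u) / (Real.pi * u)| < 1 := by
    rw [abs_div, abs_of_pos h0, div_lt_one h0]
    exact h1
  have h3 := (sq_lt_one_iff_abs_lt_one _).2 h2
  unfold F
  linarith

lemma D_pos {α β : ℝ} (hα : 0 < α) (hαβ : α < β) : 0 < ∫ u in α..β, F u := by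
  refine intervalIntegral.intervalIntegral_pos_of_pos_on (FF_ii α β) (fun x hx => ?_) hαβ
  exact F_pos (hα.trans hx.1)

/-- **The criterion.** -/
theorem result (l : Filter ℝ) (hl : l ≤ atTop) (ℓ₁ ℓ₂ : ℝ)
    (h₁ : 0 < ℓ₁) (h₂ : 0 < ℓ₂) (hirr : Irrational (ℓ₁ / ℓ₂)) :
    PairCorrelation l ↔ (AlmostAllOnLine l ∧ GoodScales l ℓ₁ ∧ GoodScales l ℓ₂) := by
  have hev : ∀ᶠ T in l, (10 : ℝ) ≤ T := hl (eventually_ge_atTop 10)
  have e1 : PairCorrelation l ↔ ∀ α β : ℝ, 0 < α → α < β →
      Tendsto (fun T => (Mp T).real (Set.Icc α β)) l (𝓝 (∫ x in α..β, FF x)) := by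
    unfold PairCorrelation
    refine forall_congr' fun α => forall_congr' fun β => imp_congr_right fun hα =>
      imp_congr_right fun hαβ => ?_
    have hD := D_pos hα hαβ
    have e2 : (fun T => (N T α β : ℝ) / (T * Real.log T / (2 * Real.pi) * ∫ u in α..β, F u)) =ᶠ[l]
        fun T => (Mp T).real (Set.Icc α β) / ∫ u in α..β, F u := by
      filter_upwards [hev] with T hT
      rw [← N_Mp hT, div_div]
    rw [tendsto_congr' e2]
    constructor
    · intro h
      have h3 := h.mul_const (∫ u in α..β, F u)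
      rw [one_mul] at h3
      refine h3.congr fun T => ?_
      rw [div_mul_cancel₀ _ hD.ne']
    · intro h
      have h3 := h.div_const (∫ u in α..β, F u)
      have h4 : (∫ x in α..β, FF x) / (∫ u in α..β, F u) = 1 := div_self hD.ne'
      rwa [h4] at h3
  rw [e1]
  constructor
  · intro h
    have key : ∀ ℓ : ℝ, 0 < ℓ → GoodScales l ℓ := by
      intro ℓ hℓ
      refine ⟨1, 1, one_pos, one_pos, fun R₀ => ⟨max R₀ 1, le_max_left _ _,
        fun a ha _ ε hε => ?_⟩⟩
      have ha1 : 1 ≤ a := (le_max_right _ _).trans ha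
      have h3 := h a (a + ℓ) (by linarith) (by linarith)
      rw [Metric.tendsto_nhds] at h3
      filter_upwards [h3 ε hε, hev] with T hT hT10
      rw [N_Mp hT10]
      rw [Real.dist_eq] at hT
      have h4 := Real.exp_pos (-(1 * max R₀ 1))
      have h6 : ∫ u in a..(a + ℓ), F u = ∫ x in a..(a + ℓ), FF x := rfl
      rw [h6]
      linarith
    refine ⟨?_, key ℓ₁ h₁, key ℓ₂ h₂⟩
    have h2 := Pool.Agent.Q85.Rig.off_of_win hl h
    unfold AlmostAllOnLine
    rw [Metric.tendsto_nhds]
    intro ε hε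
    filter_upwards [h2 (ε / 2) (by positivity), hev] with T hT hT10
    have h3 : 0 < T * Real.log T := by
      have := Real.log_pos (show (1 : ℝ) < T by linarith)
      have : 0 < T := by linarith
      positivity
    rw [← Noff_eq] at hT
    rw [Real.dist_eq, sub_zero, abs_of_nonneg (by positivity), div_lt_iff₀ h3]
    nlinarith
  · rintro ⟨hoff, o₁, o₂⟩
    have hNF : ∀ η : ℝ, 0 < η → ∀ᶠ T : ℝ in l, NF T ≤ η * (T * Real.log T) := by
      intro η hη
      filter_upwards [hoff.eventually (eventually_lt_nhds hη), hev] with T hT hT10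
      have h3 : 0 < T * Real.log T := by
        have := Real.log_pos (show (1 : ℝ) < T by linarith)
        have : 0 < T := by linarith
        positivity
      rw [div_lt_iff₀ h3, Noff_eq] at hT
      exact hT.le
    refine Pool.Agent.Q85.Rig.rig_zeta2GF hl hNF h₁ h₂ hirr ?_
    have key : ∀ ℓ : ℝ, GoodScales l ℓ → ∃ κ' c : ℝ, 0 < κ' ∧ 0 < c ∧
        ∃ᶠ R : ℝ in atTop, ∀ α : ℝ, R ≤ α → α ≤ (1 + c) * R → ∀ ε : ℝ, 0 < ε → ∀ᶠ T in l,
          |(Mp T).real (Set.Icc α (α + ℓ)) - ∫ x in α..(α + ℓ), FF x| ≤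
            Real.exp (-(κ' * R)) + ε := by
      rintro ℓ ⟨c, κ, hc, hκ, h⟩
      refine ⟨κ, c, hκ, hc, ?_⟩
      rw [frequently_atTop]
      intro R₀
      obtain ⟨R, hR, h2⟩ := h R₀
      refine ⟨R, hR, fun α hα hα2 ε hε => ?_⟩
      filter_upwards [h2 α hα hα2 ε hε, hev] with T hT hT10
      rw [N_Mp hT10] at hT
      exact hT
    rintro ℓ (rfl | rfl)
    · exact key _ o₁
    · exact key _ o₂

end Pool.Agent.Results.MP_8958e8_nt.SparseScales
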